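import Pool.Agent.helper59.FI.SpecB

set_option autoImplicit false

namespace Pool.Agent.FI

open Pool.Agent.helper58.DC Pool.Agent.DI Pool.Agent.GR Pool.Agent.OB

theorem EQR (hEQO : EQO_stmt) : EQR_stmt := by
  intro p M hS G _ _ L H Q hHL hQH hQp hQc φ
  classical
  have key : ∀ s : Finset G, (∀ y ∈ s, y ∈ Q) → ∀ x ∈ H ⊓ Subgroup.centralizer (s : Set G),
      InM M (eS H (BR M L φ H) x -
        eS (H ⊓ Subgroup.centralizer (s : Set G)) (BR M L φ (H ⊓ Subgroup.centralizer (s : Set G))) x) := by
    intro s
    induction s using Finset.induction_on with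
    | empty =>
      intro _ x _
      have e : H ⊓ Subgroup.centralizer ((∅ : Finset G) : Set G) = H := by
        ext z
        rw [Subgroup.mem_inf, Subgroup.mem_centralizer_iff]
        exact ⟨fun h => h.1, fun h => ⟨h, fun w hw => by simp at hw⟩⟩
      rw [e, sub_self]
      exact InM.zero hS
    | insert y s hy ih =>
      intro hs x hx
      have hsQ : ∀ z ∈ s, z ∈ Q := fun z hz => hs z (Finset.mem_insert_of_mem hz)
      have hyQ : y ∈ Q := hs y (Finset.mem_insert_self _ _)
      set K := H ⊓ Subgroup.centralizer (s : Set G) with hK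
      have e : H ⊓ Subgroup.centralizer ((insert y s : Finset G) : Set G) = Cz K y := by
        ext z
        rw [mem_Cz, hK, Subgroup.mem_inf, Subgroup.mem_inf, Subgroup.mem_centralizer_iff, Subgroup.mem_centralizer_iff,
          Finset.coe_insert]
        constructor
        · rintro ⟨h1, h2⟩
          exact ⟨⟨h1, fun w hw => h2 w (Set.mem_insert_of_mem _ hw)⟩, h2 y (Set.mem_insert _ _)⟩
        · rintro ⟨⟨h1, h2⟩, h3⟩
          refine ⟨h1, fun w hw => ?_⟩
          rcases hw with rfl | hw
          · exact h3
          · exact h2 w hw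
      rw [e] at hx ⊢
      have hyK : y ∈ K := by
        rw [hK, Subgroup.mem_inf, Subgroup.mem_centralizer_iff]
        exact ⟨hQH hyQ, fun w hw => hQc w (hsQ w hw) y hyQ⟩
      have hKL : K ≤ L := inf_le_left.trans hHL
      have hpel : PEl p y := by
        obtain ⟨k, hk⟩ := hQp ⟨y, hyQ⟩
        exact ⟨k, by simpa using congrArg Subtype.val hk⟩
      have h1 := ih hsQ x (mem_Cz.1 hx).1
      have h2 := hEQO p M hS G L K hKL y hyK hpel φ x hx
      have h3 := InM.add hS h1 h2
      rwa [sub_add_sub_cancel] at h3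
  intro x hx
  have hfin : (Q : Set G).Finite := Set.toFinite _
  have e : (hfin.toFinset : Set G) = (Q : Set G) := hfin.coe_toFinset
  have h := key hfin.toFinset (fun y hy => hfin.mem_toFinset.1 hy) x
  rw [e] at h
  exact h hx

end Pool.Agent.FI
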