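import Pool.Agent.helper59.FI.SpecB2

set_option autoImplicit false

namespace Pool.Agent.FI

open Pool.Agent.helper58.DC Pool.Agent.DI Pool.Agent.GR Pool.Agent.OB

theorem FUR (hFUS : FUS_stmt) : FUR_stmt := by
  intro p M hS G _ _ D x θ χ hR P hP a ha u hu l hl hlu ψ hψ h1 h2
  have hQD : P ⊔ Subgroup.zpowers u ≤ D := sup_le hP ((Subgroup.zpowers_le).2 hu)
  have hcQ : cz (P ⊔ Subgroup.zpowers u) = Cz (cz P) u := cz_sup_zpowers P u
  have hQ' : P ⊔ Subgroup.zpowers u ≤ cj l⁻¹ D := by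
    refine sup_le ?_ ((Subgroup.zpowers_le).2 ?_)
    · intro r hr
      rw [mem_cj, inv_inv]
      have e : r * l = l * r := (Subgroup.mem_centralizer_iff.1 hl) r hr
      have e2 : l * r * l⁻¹ = r := by rw [← e]; group
      rw [e2]
      exact hP hr
    · rw [mem_cj, inv_inv, hlu]
      exact ha
  have hmap : (P ⊔ Subgroup.zpowers u).map (MulAut.conj l).toMonoidHom ≤ D := by
    intro z hz
    have hz' : z ∈ cj l (P ⊔ Subgroup.zpowers u) := hz
    rw [mem_cj] at hz'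
    have h3 := hQ' hz'
    rw [mem_cj, inv_inv] at h3
    have e : l * (l⁻¹ * z * l) * l⁻¹ = z := by group
    rwa [e] at h3
  have hcl : cz ((P ⊔ Subgroup.zpowers u).map (MulAut.conj l).toMonoidHom) = Cz (cz P) a := by
    have h3 : cz (cj l (P ⊔ Subgroup.zpowers u)) = Cz (cz P) a := by
      rw [cj_cz, hcQ, ← cj_Cz, cj_self hl, hlu]
    exact h3
  obtain ⟨l', hl', ht⟩ := hFUS p M hS G D x θ χ hR (P ⊔ Subgroup.zpowers u) hQD l hmap ψ (by rw [hcQ]; exact hψ)
    (by rw [hcQ]; exact h1) (by rw [hcl]; exact h2)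
  rw [hcl, mem_Cz] at hl'
  refine ⟨l' * l, ht, mul_mem hl'.1 hl, ?_⟩
  calc l' * l * u * (l' * l)⁻¹ = l' * (l * u * l⁻¹) * l'⁻¹ := by group
    _ = l' * a * l'⁻¹ := by rw [hlu]
    _ = a := by rw [← hl'.2]; group

end Pool.Agent.FI
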