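import Pool.Agent.helper59.FI.SpecB

set_option autoImplicit false

namespace Pool.Agent.FI

open Pool.Agent.helper58.DC Pool.Agent.DI Pool.Agent.GR Pool.Agent.OB

theorem IVS : IVS_stmt := by
  intro G _ _ H S hS g hg x
  have hfin : S.Finite := (IrrOn_fin H).subset hS
  have hinj : Function.Injective (fun ψ : G → ℂ => funMap (MulAut.conj g) ψ) := by
    intro a b hab
    funext y
    have := congrFun hab (g * y * g⁻¹)
    simp only [funMap_apply] at this
    have e : g⁻¹ * (g * y * g⁻¹) * g = y := by group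
    rwa [e] at this
  have hbij : Set.BijOn (fun ψ : G → ℂ => funMap (MulAut.conj g) ψ) S S :=
    (hfin.injOn_iff_bijOn_of_mapsTo hg).1 hinj.injOn
  unfold eS
  congr 1
  symm
  refine finsum_mem_eq_of_bijOn _ hbij ?_
  intro ψ _
  simp only [funMap_apply]
  have e1 : g⁻¹ * 1 * g = 1 := by group
  have e2 : g⁻¹ * (g * x * g⁻¹)⁻¹ * g = x⁻¹ := by group
  rw [e1, e2]

end Pool.Agent.FI
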