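import Pool.Agent.helper70.FI.SpecQ1

/-! Row QIR of the project fi (MP_baa4d7_al): the trace of the idempotent matrix `EE` on a union of blocks. -/

set_option autoImplicit false

namespace Pool.Agent.FI

open Pool.Agent.helper58.DC Pool.Agent.DI Pool.Agent.GR Pool.Agent.OB

theorem QIR_rank {n : Type} [Fintype n] [DecidableEq n] (A : Matrix n n ℂ) (hA : A * A = A) :
    ∃ l : ℕ, ∑ i, A i i = l := by
  have h1 : IsIdempotentElem (Matrix.toLin' A) := by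
    change Matrix.toLin' A * Matrix.toLin' A = Matrix.toLin' A
    rw [Module.End.mul_eq_comp, ← Matrix.toLin'_mul, hA]
  have h2 : LinearMap.IsProj (LinearMap.range (Matrix.toLin' A)) (Matrix.toLin' A) := by
    refine ⟨fun x => LinearMap.mem_range_self _ x, ?_⟩
    rintro x ⟨y, rfl⟩
    exact LinearMap.congr_fun h1 y
  have h3 := h2.trace
  refine ⟨Module.finrank ℂ (LinearMap.range (Matrix.toLin' A)), ?_⟩
  rw [← h3, Matrix.trace_toLin'_eq]
  rfl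

theorem QIR (hQEI : QEI_stmt) (hB2 : B2_stmt) : QIR_stmt := by
  classical
  intro p M hM G _ _ H S hS hne
  obtain ⟨q1, -, -, q4⟩ := hQEI p M hM G H S hS
  have hfin : S.Finite := (hB2 G H).1.subset hS.sub
  haveI : Fintype S := hfin.fintype
  have hsum : ∀ f : (G → ℂ) → ℂ, ∑ᶠ ψ ∈ S, f ψ = ∑ ψ : S, f ψ := fun f => by
    rw [← finsum_set_coe_eq_finsum_mem, finsum_eq_sum_of_fintype]
  have h1 : (Matrix.of fun (ψ ψ' : S) => EE p H ψ.1 ψ'.1) * (Matrix.of fun (ψ ψ' : S) => EE p H ψ.1 ψ'.1)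
      = Matrix.of fun (ψ ψ' : S) => EE p H ψ.1 ψ'.1 := by
    ext ψ ψ''
    have h2 := q1 ψ.1 ψ.2 ψ''.1 ψ''.2
    rw [hsum] at h2
    exact h2
  obtain ⟨l, hl⟩ := QIR_rank _ h1
  have hl' : ∑ ψ : S, EE p H ψ.1 ψ.1 = (l : ℂ) := hl
  refine ⟨l, ?_, ?_⟩
  · by_contra hc
    have hl0 : l = 0 := by omega
    rw [hl0] at hl'
    choose! r hr using fun (ψ : S) => q4 ψ.1 (hS.sub ψ.2)
    have h3 : ((∑ ψ : S, r ψ : ℝ) : ℂ) = 0 := by
      rw [Complex.ofReal_sum, ← Nat.cast_zero, ← hl']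
      exact Finset.sum_congr rfl fun ψ _ => (hr ψ).2.symm
    have h4 : (∑ ψ : S, r ψ : ℝ) = 0 := Complex.ofReal_eq_zero.1 h3
    obtain ⟨ψ0, hψ0⟩ := hne
    have h5 : 0 < ∑ ψ : S, r ψ :=
      Finset.sum_pos (fun ψ _ => (hr ψ).1) ⟨⟨ψ0, hψ0⟩, Finset.mem_univ _⟩
    exact absurd h4 h5.ne'
  · rw [hsum]
    exact hl'

end Pool.Agent.FI
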